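import Pool.Agent.H44.SO.Basic

/-!
# Several orbits of vertices: canonical maps give behaviours
-/

set_option autoImplicit false
set_option linter.unusedVariables false

namespace Pool.Agent.H18.SO.BHH

open Pool.Agent.H68.BP Pool.Agent.H58.SF Pool.Agent.H53.GC Pool.Agent.H53.NR
open Pool.Agent.H57.EQ (Cx Tour)
open Pool.Agent.H57.SO Pool.Agent.H44.SO
open Function

section

variable {V S X : Type} [LinearOrder V] {P : Pal S X} {c : V → V → S ⊕ X}

/-- the pairs of entries in different coordinates -/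
theorem zon_ne (hc : Col P c) {I : Type} {rk : I → ℕ} (hrk : Injective rk) {z z' w w' : I → V}
    (h1 : Zon P c rk z z') (h2 : Zon P c rk z' z) (h1' : Zon P c rk w w')
    (h2' : Zon P c rk w' w) (ht : ∀ i, vt P c (z i) = vt P c (w i))
    (ht' : ∀ i, vt P c (z' i) = vt P c (w' i)) {i j : I} (hij : i ≠ j) :
    (z i < z' j ↔ w i < w' j) ∧ c (z i) (z' j) = c (w i) (w' j) := by
  rcases lt_or_gt_of_ne (fun h => hij (hrk h) : rk i ≠ rk j) with h | h
  · obtain ⟨a1, a2⟩ := h1 i j h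
    obtain ⟨b1, b2⟩ := h1' i j h
    exact ⟨⟨fun _ => b1, fun _ => a1⟩, by rw [a2, b2, ht i, ht' j]⟩
  · obtain ⟨a1, a2⟩ := h2 j i h
    obtain ⟨b1, b2⟩ := h2' j i h
    refine ⟨⟨fun h3 => absurd a1 (not_lt.2 h3.le), fun h3 => absurd b1 (not_lt.2 h3.le)⟩, ?_⟩
    rw [hc.swap _ _ _ a2, hc.swap _ _ _ b2, ht i, ht' j]

/-- generic pairs with the same types in the coordinates have the same type -/
theorem same_of {I : Type} {rk : I → ℕ} (hc : Col P c) (hrk : Injective rk) {z z' w w' : I → V}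
    (h : Gen P c rk z z') (h' : Gen P c rk w w') (ht : ∀ i, vt P c (z i) = vt P c (w i))
    (ht' : ∀ i, vt P c (z' i) = vt P c (w' i))
    (hd : ∀ i, (z i < z' i ↔ w i < w' i) ∧ (z' i < z i ↔ w' i < w i) ∧
      c (z i) (z' i) = c (w i) (w' i)) :
    Same c (Sum.elim z z') (Sum.elim w w') := by
  obtain ⟨h1, h2, h3, h4⟩ := h
  obtain ⟨k1, k2, k3, k4⟩ := h'
  rintro (i | i) (j | j)
  · by_cases hij : i = j
    · subst hij
      refine ⟨by simp, ?_⟩
      show c (z i) (z i) = c (w i) (w i)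
      rw [Col.vt hc, Col.vt hc, ht i]
    · exact zon_ne hc hrk h1 h1 k1 k1 ht ht hij
  · by_cases hij : i = j
    · subst hij
      exact ⟨(hd i).1, (hd i).2.2⟩
    · exact zon_ne hc hrk h2 h3 k2 k3 ht ht' hij
  · by_cases hij : i = j
    · subst hij
      exact ⟨(hd i).2.1, Col.swap' hc (hd i).2.2⟩
    · exact zon_ne hc hrk h3 h2 k3 k2 ht' ht hij
  · by_cases hij : i = j
    · subst hij
      refine ⟨by simp, ?_⟩
      show c (z' i) (z' i) = c (w' i) (w' i)
      rw [Col.vt hc, Col.vt hc, ht' i]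
    · exact zon_ne hc hrk h4 h4 k4 k4 ht' ht' hij

end

theorem pf_BHH (hG : T_GEN) (hT : T_TAM) : T_BHH := by
  intro σ V S X _ P 𝔸 M c hs I _ rk hrk H hH
  have hc := hs.col
  -- generic blocks
  have hz : ∀ t : I → S, ∃ z : I → V, Gen P c rk z z ∧ (∀ i, vt P c (z i) = t i) := by
    intro t
    choose g hg using fun s => hc.surS s
    obtain ⟨G', h1, h2⟩ := hG σ V S X P 𝔸 M c hs I Unit rk hrk (fun i _ => g (t i))
    refine ⟨fun i => G' i (), ?_, fun i => ?_⟩
    · have := h2 () ()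
      exact ⟨this, this, this, this⟩
    · apply vt_of
      rw [(h1 i () ()).1]
      exact hg _
  have hinl : ∀ z : I → V, ∃ s, H z z = Sum.inl s := by
    intro z
    obtain ⟨ψ, _, h2⟩ := hH.comb Unit (fun i _ => z i)
    refine ⟨vt P c (ψ ()), ?_⟩
    have h3 := h2 () ()
    rw [← h3]
    exact Col.vt hc _
  choose zt hzt1 hzt2 using hz
  choose sH hsH using hinl
  refine ⟨fun t => sH (zt t), fun t t' A => ∃ z z' : I → V, Gen P c rk z z' ∧
    (∀ i, vt P c (z i) = t i) ∧ (∀ i, vt P c (z' i) = t' i) ∧ (∀ i, z i = z' i ↔ i ∈ A) ∧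
    ∃ s, H z z' = Sum.inl s, ?_, fun t => ⟨zt t, hzt1 t, hzt2 t, hsH _⟩, fun t t' A h => h⟩
  intro W _ G
  obtain ⟨G', h1, h2⟩ := hG σ V S X P 𝔸 M c hs I W rk hrk G
  obtain ⟨ψ, hψ1, hψ2⟩ := hH.comb W G'
  have hty : ∀ i w, vt P c (G' i w) = vt P c (G i w) := by
    intro i w
    apply vt_of
    rw [(h1 i w w).1]
    exact Col.vt hc _
  refine ⟨ψ, Cx.of_copy hs (fun i u w => (h1 i u w).1) hψ1, fun w => ?_, fun u w => ?_⟩
  · apply vt_of
    rw [hψ2 w w]
    have hgen : Gen P c rk (fun i => G' i w) (fun i => G' i w) :=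
      ⟨h2 w w, h2 w w, h2 w w, h2 w w⟩
    have hsame := same_of hc hrk hgen (hzt1 fun i => vt P c (G i w))
      (fun i => by rw [hzt2]; exact hty i w) (fun i => by rw [hzt2]; exact hty i w)
      (fun i => ⟨by simp, by simp, by
        rw [Col.vt hc, Col.vt hc, hzt2]
        exact congrArg Sum.inl (hty i w)⟩)
    rw [hH.tinv _ _ _ _ hsame]
    exact hsH _
  · have hgen : Gen P c rk (fun i => G' i u) (fun i => G' i w) :=
      ⟨h2 u u, h2 u w, h2 w u, h2 w w⟩
    have heq : ∀ i, G' i u = G' i w ↔ G i u = G i w := fun i => Col.eq_iff' hc (h1 i u w).1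
    rw [← hc.eq_iff (ψ u) (ψ w), hψ2 u w]
    constructor
    · intro h3
      exact ⟨_, _, hgen, fun i => hty i u, fun i => hty i w, fun i => heq i, h3⟩
    · rintro ⟨z, z', h3, h4, h5, h6, h7⟩
      refine hT σ V S X P 𝔸 M c hs I rk hrk H hH z z' _ _ h3 hgen
        (fun i => ?_) (fun i => ?_) (fun i => ?_) h7
      · rw [h4]
        exact hty i u
      · rw [h5]
        exact hty i w
      · rw [h6]
        exact heq i

end Pool.Agent.H18.SO.BHH
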