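import Pool.Agent.H58.SO.Bridge

/-!
# Several orbits of vertices: from a coloured order to the hypotheses of part B
-/

set_option autoImplicit false
set_option linter.unusedVariables false

namespace Pool.Agent.H18.SO

open Pool.Agent.H68.BP Pool.Agent.H58.SF Pool.Agent.H53.GC Pool.Agent.H53.NR Pool.Agent.H58.SO
open Classical

section

variable {V X Θ : Type} [LinearOrder V] {M : ℕ}

/-- the palette -/
def pal (B : Bs V X Θ M) : Pool.Agent.H57.SO.Pal Θ X :=
  ⟨B.L, B.Rt, B.inv, B.fr, B.frL, B.frR, B.frI⟩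

/-- the colouring -/
noncomputable def col (B : Bs V X Θ M) (x y : V) : Θ ⊕ X :=
  if x = y then Sum.inl (B.vt x) else Sum.inr (B.c x y)

theorem col_self (B : Bs V X Θ M) (x : V) : col B x x = Sum.inl (B.vt x) := if_pos rfl

theorem col_ne (B : Bs V X Θ M) {x y : V} (h : x ≠ y) : col B x y = Sum.inr (B.c x y) := if_neg h

theorem of_inr (B : Bs V X Θ M) {x y : V} {t : X} (h : col B x y = Sum.inr t) :
    x ≠ y ∧ B.c x y = t := by
  by_cases hxy : x = y
  · subst hxy
    rw [col_self] at h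
    exact absurd h Sum.inl_ne_inr
  · rw [col_ne B hxy] at h
    exact ⟨hxy, Sum.inr.inj h⟩

theorem of_inl (B : Bs V X Θ M) {x y : V} {s : Θ} (h : col B x y = Sum.inl s) :
    x = y ∧ B.vt x = s := by
  by_cases hxy : x = y
  · subst hxy
    rw [col_self] at h
    exact ⟨rfl, Sum.inl.inj h⟩
  · rw [col_ne B hxy] at h
    exact absurd h Sum.inr_ne_inl

/-- two free vertices of the same type -/
theorem two_free (B : Bs V X Θ M) (x : V) :
    ∃ y z : V, y ≠ z ∧ B.c y z = B.fr (B.vt x) (B.vt x) := by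
  obtain ⟨f, hf, hc⟩ := B.univ 2 (fun _ _ => B.fr (B.vt x) (B.vt x)) (by
    intro m s _ _ h
    refine ⟨fun _ => x, fun i j hij => ?_⟩
    rcases hij.eq_or_lt with rfl | hlt
    · exact B.diag x
    · exact absurd (by simp only [B.frL]) (h i j hlt))
  have h01 : (0 : Fin 2) < 1 := by decide
  exact ⟨f 0, f 1, (hf h01).ne, hc 0 1 h01.le⟩

theorem col_col (B : Bs V X Θ M) : Pool.Agent.H57.SO.Col (pal B) (col B) where
  eq_iff x y := by
    constructor
    · rintro ⟨s, h⟩
      exact (of_inl B h).1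
    · rintro rfl
      exact ⟨_, col_self B x⟩
  left x y t h := by
    obtain ⟨_, h2⟩ := of_inr B h
    rw [col_self, ← h2]
    exact congrArg Sum.inl (B.left x y).symm
  right x y t h := by
    obtain ⟨_, h2⟩ := of_inr B h
    rw [col_self, ← h2]
    exact congrArg Sum.inl (B.right x y).symm
  swap x y t h := by
    obtain ⟨h1, h2⟩ := of_inr B h
    rw [col_ne B h1.symm, ← h2]
    exact congrArg Sum.inr (B.sym x y)
  surS s := by
    obtain ⟨x, hx⟩ := B.surjT s
    exact ⟨x, by rw [col_self, hx]⟩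
  surX t := by
    obtain ⟨x, y, hxy⟩ := B.surjX t
    by_cases h : x = y
    · subst h
      obtain ⟨y, z, h1, h2⟩ := two_free B x
      refine ⟨y, z, ?_⟩
      rw [col_ne B h1, h2, ← hxy, B.diag]
    · exact ⟨x, y, by rw [col_ne B h, hxy]⟩

theorem uni_col (B : Bs V X Θ M) : Pool.Agent.H57.SO.Uni (pal B) (col B) M := by
  intro n t d h
  obtain ⟨f, hf, hfc⟩ := B.univ n (fun i j => if i = j then B.fr (t i) (t i) else d i j) (by
    intro m s hm hs hfr
    obtain ⟨v, hv1, hv2⟩ := h m s hm hs (by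
      intro i j hij
      have h1 := hfr i j hij
      have hne : s i ≠ s j := (hs hij).ne
      simp only [hne, if_false, if_true, B.frL] at h1
      exact h1)
    refine ⟨v, fun i j hij => ?_⟩
    rcases hij.eq_or_lt with rfl | hlt
    · rw [B.diag, (of_inl B (hv1 i)).2, if_pos rfl]
    · rw [(of_inr B (hv2 i j hlt)).2, if_neg (hs hlt).ne])
  refine ⟨f, hf, fun i => ?_, fun i j hij => ?_⟩
  · rw [col_self]
    have h1 := hfc i i le_rfl
    rw [if_pos rfl] at h1
    rw [← B.left (f i) (f i), h1, B.frL]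
  · have h1 := hfc i j hij.le
    rw [if_neg hij.ne] at h1
    rw [col_ne B (hf hij).ne, h1]

end

theorem pf_BSO : T_BSO := by
  intro σ V X Θ _ M B 𝔸 hcnt hbl
  refine ⟨pal B, col B, ⟨col_self B, fun x y h => col_ne B h, rfl, rfl, rfl, rfl⟩, ?_⟩
  refine ⟨B.finT, B.finX, B.ne, hcnt, le_trans (by norm_num) B.four, col_col B, uni_col B, ?_⟩
  intro l x y hx hxy
  refine hbl l x y hx ⟨fun a => ?_, fun a b _ _ => ?_⟩
  · have h1 := hxy a a
    rw [col_self, col_self] at h1
    exact Sum.inl.inj h1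
  · have h1 := hxy a b
    by_cases h2 : x a = x b
    · rw [h2, col_self] at h1
      obtain ⟨h3, h4⟩ := of_inl B h1
      refine ⟨⟨fun _ => h2, fun _ => h3⟩, ?_⟩
      rw [h2, ← h3, B.diag, B.diag, h4]
    · rw [col_ne B h2] at h1
      obtain ⟨h3, h4⟩ := of_inr B h1
      exact ⟨⟨fun h5 => absurd h5 h3, fun h5 => absurd h5 h2⟩, h4⟩

end Pool.Agent.H18.SO
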